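import Mathlib

/-!
Definitions used in the statement. The unit circle is `AddCircle 1` with normalised Haar measure;
`fourier k` is the function `z ^ k`.
-/

namespace Pool.Agent.MP_0ce33b_an

open MeasureTheory

/-- `H` is the Hardy space H^2: the L^2 functions whose negative Fourier coefficients vanish. -/
structure IsHardySpace (H : Submodule ℂ (Lp ℂ 2 (AddCircle.haarAddCircle (T := 1)))) : Prop where
  mem_iff : ∀ f : Lp ℂ 2 (AddCircle.haarAddCircle (T := 1)),
    f ∈ H ↔ ∀ k : ℤ, k < 0 → fourierCoeff f k = 0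

/-- `A` is the compression `f ↦ P (φ f)` to `H` of multiplication by `φ`: the inner product of
`A f` with each `g` in `H` is the L^2 inner product of `φ f` with `g`. -/
structure IsToeplitz (H : Submodule ℂ (Lp ℂ 2 (AddCircle.haarAddCircle (T := 1))))
    (φ : AddCircle (1 : ℝ) → ℂ) (A : H →L[ℂ] H) : Prop where
  inner_eq : ∀ f g : H, inner ℂ g (A f) =
    ∫ t, (starRingEnd ℂ) (g.1 t) * (φ t * f.1 t) ∂(AddCircle.haarAddCircle (T := 1))

/-- `T` is the operator matrix with rows `A B` and `C D` on the Hilbert direct sum of two copies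
of `E`. -/
structure IsBlock {E : Type} [NormedAddCommGroup E] [InnerProductSpace ℂ E]
    (A B C D : E →L[ℂ] E) (T : WithLp 2 (E × E) →L[ℂ] WithLp 2 (E × E)) : Prop where
  fst_eq : ∀ x, (T x).fst = A x.fst + B x.snd
  snd_eq : ∀ x, (T x).snd = C x.fst + D x.snd

/-- `T` is subnormal: `E` embeds isometrically into a Hilbert space `K` carrying a normal operator
`N` that leaves the image invariant and restricts to `T` there. -/
structure IsSubnormalOp.{u} {E : Type} [NormedAddCommGroup E] [InnerProductSpace ℂ E]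
    (T : E →L[ℂ] E) : Prop where
  exists_normal : ∃ (K : Type u) (_ : NormedAddCommGroup K) (_ : InnerProductSpace ℂ K)
    (_ : CompleteSpace K) (ι : E →ₗᵢ[ℂ] K) (N : K →L[ℂ] K),
    IsStarNormal N ∧ ∀ x, N (ι x) = ι (T x)

/-- `φ` is a co-analytic polynomial of degree `n`. -/
structure IsCoanalytic (n : ℕ) (φ : AddCircle (1 : ℝ) → ℂ) : Prop where
  exists_coeff : ∃ a : ℕ → ℂ, a n ≠ 0 ∧
    ∀ x, φ x = ∑ k ∈ Finset.range (n + 1), a k * fourier (-(k : ℤ)) x

/-- `φ` is, almost everywhere, a trigonometric polynomial of degree at most `n`. -/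
structure IsTrig (n : ℕ) (φ : AddCircle (1 : ℝ) → ℂ) : Prop where
  exists_coeff : ∃ c : ℤ → ℂ, ∀ᵐ x ∂(AddCircle.haarAddCircle (T := 1)),
    φ x = ∑ k ∈ Finset.Icc (-(n : ℤ)) n, c k * fourier k x

end Pool.Agent.MP_0ce33b_an
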